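import Mathlib
import Pool.Agent.N578.LB.Final
import Pool.Agent.N205.KR.Main
import Pool.Agent.N220.ME.For

/-!
# The Bass finite generation conjecture: almost every point of the space of real Weil polynomials

Let `g i` be positive integers (`i` in a finite set `I`) and `n = ∑ g i`. For a prime power `q` a point `x` of `ℤ ^ n` gives the
polynomials `h_i = X ^ (g i) + ∑ x_(i,k) X ^ k` and `f_i = X ^ (g i) h_i(X + q / X)`; all Weil `q`-polynomials of degree `2 g i` are
of this form. The starting theorems and `LatticeBoxes` (helper578) show that few of the points in boxes do not have the properties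
`KForIndep` and `TameIndep`. Here: for almost every real point `ξ` of `ℝ ^ n` ALL points `x` with
`|x_(i,k) - q ^ ((g i - k) / 2) ξ_(i,k)| ≤ q ^ η` have the properties (`q ∤ tr(h_i) ^ 2`), for every prime `p` and `q = p ^ m` with
`m` large, and for all but at most `C Q ^ β` of the prime powers `q ≤ Q`, if `n η < 1 / 6` and `β > 5 / 6 + n η`. The null set does
not depend on `χ₀`, `d`, `η`, `p`, `β`. The proof is by the lemma of Borel and Cantelli (`N220/ME`).
-/

set_option autoImplicit false

namespace Pool.Agent.Results.MP_e17fa799_al.AlmostEveryPoint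

open Polynomial MeasureTheory Pool.Agent.N205.SG Pool.Agent.N578.LB Pool.Agent.N220.ME

open Pool.Agent.N205.KR (KForIndep)

/-- For positive integers `g i` and almost every point `ξ` of `ℝ ^ n`, `n = ∑ g i`, for all nonzero `χ₀` in `ℚ[X]` and all `d` as in
`DimsU`: the property `KForIndep q f` together with the independence of all tame sets (`TameIndep g d q χ₀ f`) holds near `ξ`
(`HoldsNear`). -/
theorem result {I : Type} [Fintype I] [DecidableEq I] (g : I → ℕ) (hg : ∀ i, 0 < g i) :
    ∀ᵐ ξ : (Σ i, Fin (g i)) → ℝ, ∀ χ₀ : ℚ[X], χ₀ ≠ 0 → ∀ d : ℕ, DimsU g d →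
      HoldsNear g (fun q f => KForIndep q f ∧ TameIndep g d q χ₀ f) ξ :=
  allTame g (fun d => DimsU g d) (fun χ₀ d q f => KForIndep q f ∧ TameIndep g d q χ₀ f) fun d hd D =>
    indepLattices g hg d hd D (fun q f => KForIndep q f) fun _ hq x hx => Pool.Agent.N205.KR.k_indep g hg hq.one_lt x hx

end Pool.Agent.Results.MP_e17fa799_al.AlmostEveryPoint
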