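import Pool.Agent.N882.UE.BassDeg

/-!
# MP_e17fa799_al: Bass's conjecture degree by degree, and principal opens of affine spaces

`KThy` (starting library `Pool.Agent.R904.TR.Defs`) lists the properties of Quillen's groups `K'_n(X)` of
schemes of finite type over `ℤ` which are used; `Laurent0 K`: `K'_0(A[t, 1/t]) = K'_0(A)`. `K.Fin X`: all groups
`K'_m(X)` are finitely generated; `UpTo K n X`: the groups `K'_m(X)`, `m ≤ n`, are finitely generated; `K.Bass` is
Q1. `FT False X`: `X` is of finite type over the base.

`sysS ℤ E` is the affine scheme given by the bilinear equations `few ℤ E_l = ∑_{(i, j) ∈ E_l} x_i y_j = 0`;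
`hypS (ofSets ℤ E)` is the smooth affine cubic hypersurface `∑_l z_l ∑_{(i, j) ∈ E_l} x_i y_j = 1` over `ℤ`; `bilS t`
is the scheme given by the bilinear equations `bform t l = ∑ t_ijl x_i y_j = 0`; and `opnS f` is the principal
open subscheme `f_1 ⋯ f_r ≠ 0` of the affine space.
-/

set_option autoImplicit false

open CategoryTheory AlgebraicGeometry Pool.Agent.Y116.UV Pool.Agent.N882.UE Pool.Agent.Q282.UK
  Pool.Agent.Q282.UZ Pool.Agent.Z125.UN Pool.Agent.R904.TR Pool.Agent.R904.CU

namespace Pool.Agent.Results.MP_e17fa799_al.DegreeByDegree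

/-- `K'_m(X)` is finitely generated for all schemes `X` of finite type over `ℤ` and all `m ≤ n`. -/
def All (K : KThy) (n : ℕ) : Prop := ∀ X : Sch ℤ, FT False X → UpTo K n X.left

/-- `K'_m(X)` is finitely generated for all regular schemes `X` of finite type over `ℤ` and all `m ≤ n` (Q1 in
degrees at most `n`). -/
def Regular (K : KThy) (n : ℕ) : Prop :=
  ∀ X : Sch ℤ, FT False X → IsRegularScheme X.left → UpTo K n X.left

/-- The same for the systems of bilinear equations over `ℤ` with coefficients `1` and at most three terms in
every equation. -/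
def Systems (K : KThy) (n : ℕ) : Prop :=
  ∀ (a b c : ℕ) (E : Fin c → Finset (Fin a × Fin b)), (∀ l, (E l).card ≤ 3) →
    UpTo K n (sysS ℤ E).left

/-- The same for the cubic hypersurfaces `∑_l z_l ∑_{(i, j) ∈ E_l} x_i y_j = 1` over `ℤ`, such that every `E_l`
has at most three elements. -/
def Cubics (K : KThy) (n : ℕ) : Prop :=
  ∀ (a b c : ℕ) (E : Fin c → Finset (Fin a × Fin b)), (∀ l, (E l).card ≤ 3) →
    UpTo K n (hypS (ofSets ℤ E)).left

/-- All `K_m` of the principal opens `f_1 ⋯ f_r ≠ 0` of the affine spaces over `ℤ`, defined by bilinear forms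
`f_l` with coefficients `1` and at most three terms, are finitely generated. -/
def Opens (K : KThy) : Prop :=
  ∀ (a b r : ℕ) (E : Fin r → Finset (Fin a × Fin b)), (∀ l, (E l).card ≤ 3) →
    K.Fin (opnS fun l => few ℤ (E l)).left

/-- All `K_m` of the principal opens `b_1 ⋯ b_r ≠ 0` of the affine spaces over `R` are finitely generated, for
all bilinear forms `b_l` over `R`, if there are at most `m` variables `x`, or at most `m` variables `y`, or at
most `m` forms. -/
def BlockOpens (K : KThy) (R : Type) [CommRing R] (m : ℕ) : Prop :=
  ∀ (a b r : ℕ) (t : Fin a → Fin b → Fin r → R), (a ≤ m ∨ b ≤ m ∨ r ≤ m) →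
    K.Fin (opnS (bform t)).left

/-- All `K'_m` of the systems of bilinear equations over `R` are finitely generated, if there are at most `m`
variables `x`, or at most `m` variables `y`, or at most `m` equations. -/
def BlockSystems (K : KThy) (R : Type) [CommRing R] (m : ℕ) : Prop :=
  ∀ (a b c : ℕ) (t : Fin a → Fin b → Fin c → R), (a ≤ m ∨ b ≤ m ∨ c ≤ m) → K.Fin (bilS t).left

/-- **Theorem.** Let `K` be the theory `K'` of schemes of finite type over `ℤ`.
(1) For every `n` the following are equivalent: `K'_m(X)` is finitely generated for all `m ≤ n` and all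
schemes `X` of finite type over `ℤ`, regular or not; for all `m ≤ n` and the schemes given by bilinear
equations over `ℤ` with coefficients `1` and at most three terms; `K_m` is finitely generated for all
`m ≤ n + 1` and the cubic hypersurfaces `∑_l z_l ∑_{(i, j) ∈ E_l} x_i y_j = 1` over `ℤ`, where every `E_l` has at
most three elements. This is implied by Q1 in degrees at most `n + 1`, and implies Q1 in degrees at most `n`.
(2) Q1 is equivalent to finite generation of all `K_m` of the principal opens `f_1 ⋯ f_r ≠ 0` of the affine
spaces over `ℤ`, defined by bilinear forms `f_l` with coefficients `1` and at most three terms.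
(3) Over a finite field `k` and for every `d`, Q1 for the smooth schemes over `k` of dimension at most `d` is
equivalent to finite generation of all `K_m` of the principal opens `b_1 ⋯ b_r ≠ 0` of affine spaces over `k`, the
`b_l` bilinear forms over `k`, with at most `d + 2` variables in one of the two blocks or with `r ≤ d + 2`; it is
also equivalent to finite generation of all `K'_m` of the systems of bilinear equations with at most `d + 2`
variables in one of the blocks or at most `d + 2` equations. For `3` instead of `d + 2` this is true.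
(4) Over every domain `R` of dimension at most one and of finite type over `ℤ` this is true for `2` instead of
`d + 2`. -/
theorem result (K : KThy) (hK : Laurent0 K) :
    (∀ n : ℕ, [All K n, Systems K n, Cubics K (n + 1)].TFAE ∧ (Regular K (n + 1) → All K n) ∧
      (All K n → Regular K n)) ∧
    (K.Bass ↔ Opens K) ∧
    (∀ (k : Type) [Field k] [Finite k], (∀ d : ℕ, [K.SmoothDim k d, BlockOpens K k (d + 2),
      BlockSystems K k (d + 2)].TFAE) ∧ BlockOpens K k 3 ∧ BlockSystems K k 3) ∧
    (∀ (R : Type) [CommRing R] [IsDomain R] [Algebra.FiniteType ℤ R], ringKrullDim R ≤ 1 →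
      BlockOpens K R 2 ∧ BlockSystems K R 2) := by
  have hZ : K.Fin (Spec (.of ℤ)) := fin_dim_one K ℤ dim_int
  have hB := bnd K False hZ
  have hC := clo2_of_bnd hB
  refine ⟨fun n => ?_, ?_, fun k _ _ => ?_, fun R _ _ _ hR => ?_⟩
  · have h12 : All K n ↔ Systems K n := three_iff short_int (clo_upTo K False n hK)
    have h23 : Systems K n ↔ Cubics K (n + 1) := by
      constructor
      · intro h a b c E hE
        have h1 := h a b c E hE
        rw [sysS_eq] at h1
        exact (upTo_hyp K n hZ _).mp h1
      · intro h a b c E hE
        rw [sysS_eq]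
        exact (upTo_hyp K n hZ _).mpr (h a b c E hE)
    refine ⟨?_, fun h => ?_, fun h X hX _ => h X hX⟩
    · tfae_have 1 ↔ 2 := h12
      tfae_have 2 ↔ 3 := h23
      tfae_finish
    · exact h12.mpr (h23.mpr fun a b c E _ => h _ (ft_aff False) (regular_hyp _))
  · constructor
    · intro h a b r E _
      have h1 : FT False (opnS fun l => few ℤ (E l)) := ft_opnS _
      exact h _ _ (ft_int h1) (regular_opnS _)
    · intro h X f hf _
      have hX : FT False (Over.mk f : Sch ℤ) := ⟨hf.1, hf.2, fun h => h.elim⟩
      exact (opens_few short_int hC).mpr (fun a b r E hE => h a b r E hE) (Over.mk f) hX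
  · have hB := bnd K True (fin_field K k)
    have key : ∀ d : ℕ, [K.SmoothDim k d, BlockOpens K k (d + 2),
        BlockSystems K k (d + 2)].TFAE := by
      intro d
      have h1 := gen_tfae hB d
      have h2 := opens_dim hB d
      have e1 : K.SmoothDim k d ↔ ∀ X : Sch k, FT True X → topologicalKrullDim X.left ≤ d →
          K.Fin X.left := h1.out 1 0
      tfae_have 1 → 2 := by
        intro h a b r t hm
        have h3 : ∀ (a b r : ℕ) (t : Fin a → Fin b → Fin r → k), (a ≤ d + 2 ∨ b ≤ d + 2) →
            K.Fin (opnS (bform t)).left := (h2.out 0 1).mp (e1.mp h)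
        have h4 : ∀ (a b r : ℕ) (t : Fin a → Fin b → Fin r → k), r ≤ d + 2 →
            K.Fin (opnS (bform t)).left := (h2.out 0 2).mp (e1.mp h)
        rcases hm with hm | hm | hm
        · exact h3 a b r t (Or.inl hm)
        · exact h3 a b r t (Or.inr hm)
        · exact h4 a b r t hm
      tfae_have 2 → 1 := fun h => e1.mpr ((h2.out 0 2).mpr fun a b r t hm =>
        h a b r t (Or.inr (Or.inr hm)))
      tfae_have 1 ↔ 3 := by
        refine e1.trans ((h1.out 0 4).trans ?_)
        exact ⟨fun h a b c t hm => (bil_iff hB t).mpr (h a b c t hm),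
          fun h a b c t hm => (bil_iff hB t).mp (h a b c t hm)⟩
      tfae_finish
    have c1 : K.SmoothDim k 1 := fun X hX _ hn n => K.curves n _ _ (ft_int hX) (by exact_mod_cast hn)
    exact ⟨key, ((key 1).out 0 1).mp c1, ((key 1).out 0 2).mp c1⟩
  · have hB := bnd K False (fin_dim_one K R hR)
    have hC := clo2_of_bnd hB
    have h2 : BlockSystems K R 2 := fun a b c t hm => (bil_iff hB t).mpr (two K R hR t hm)
    refine ⟨fun a b r t hm => ?_, h2⟩
    rcases hm with hm | hm | hm
    · exact (opens_block hC a b r).mpr (fun c _ t => h2 a b c t (Or.inl hm)) r le_rfl t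
    · exact (opens_block hC a b r).mpr (fun c _ t => h2 a b c t (Or.inr (Or.inl hm))) r le_rfl t
    · exact (opens_block hC a b 2).mpr (fun c hc t => h2 a b c t (Or.inr (Or.inr hc))) r hm t

end Pool.Agent.Results.MP_e17fa799_al.DegreeByDegree
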