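import Mathlib
import Pool.Agent.N205.KR.Main
import Pool.Agent.N205.SG.Count

/-!
# Algebraic K-theory of products of almost all abelian varieties of every Newton stratum with all
varieties

Let `g i` (`i` in a finite set `I`) be positive integers, `B` any number and `d` a number such that
either `d ≤ 2`, or `d ≤ g i` and `g i` is three or at least five, for all `i` (`DimsU`).  By Honda and
Tate the irreducible polynomials in `weilPolys (p ^ a) g` correspond to the isogeny classes of the
simple abelian varieties over the field with `q = p ^ a` elements whose field `ℚ (π)` has degree
`2 g`; the characteristic polynomial of the Frobenius is a power of the polynomial (the polynomial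
itself if `a = 1` or if the abelian variety is ordinary).

Let `S i` be a **stratum** (`IsStratum p a (g i) t (S i)`), for instance the set of the Weil
polynomials of degree `2 g i` whose Newton polygon is a given one, or lies on or above a given one,
or any set in between, or the set of the Weil polynomials of given `p`-rank. The parameter `t` may be
`a` if the `p`-rank is at least two, and any number `t ≤ a (1 - 2 λ) - 1` where `λ` is the first slope
(normalised so that the supersingular polygon has slope one half), see `StrataFacts`: so every
stratum except for the supersingular one is included as soon as `a (1 - 2 λ) ≥ 2`.

There is a constant `C`, depending only on `g`, `d` and `B`, such that the following holds.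

**(1)** For all families `f i` in `S i` with the exception of a proportion at most
`C (p ^ t) ^ (-1 / 6) log (p ^ t)`, the statement `KForIndep (p ^ a) f` holds: for all `s > 0`, all
abelian varieties `A` over the field `k` with `q ^ s` elements, isogenous to products of powers of
abelian varieties coming from the field with `q` elements whose characteristic polynomials are powers
of the `f i`, and **all** smooth projective varieties `Z` over `k` such that

* no power `α ^ N`, `N > 0`, of a root `α` of one of the `f i` is a product of powers (with positive
  or negative exponents) of `q` and of eigenvalues of Frobenius of `Z` (`Indep`),
* homologically trivial self-correspondences of `A × Z` are nilpotent (this holds if the motive of `Z`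
  is finite-dimensional in the sense of Kimura and O'Sullivan, for instance if `Z` is dominated by a
  product of curves),

there is a finite set `J` such that

* for all `n` the groups **`K_n(A × Z)` and `K_n(Z)^J` are isomorphic up to groups of bounded
  exponent** (in particular, `K_n(A × Z)` is torsion, or of bounded exponent, if and only if `K_n(Z)`
  is);
* for all `n ≥ dim (A × Z) - 1`: **`K_n(A × Z)` is finitely generated (or finite) if and only if
  `K_n(Z)` is**;
* for all smooth projective varieties `X` dominated by `A × Z` (also in the sense of noncommutative
  motives, for instance if the derived category of `X` is a component of a semi-orthogonal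
  decomposition of the one of `A × Z`) and all `n ≥ dim X - 1`: if `K_n(Z)` is finitely generated (or
  finite) then so is `K_n(X)`.

The exceptional families do not depend on `Z`, not even on its dimension, and nothing is assumed about
algebraic cycles on `Z` (neither the conjecture of Tate nor the one of Beilinson).

**(2)** Let `χ₀` be any rational polynomial of degree at most `B`, for instance the characteristic
polynomial of Frobenius on the whole cohomology of a variety `Z₀` with total Betti number at most `B`.
With the exception of a proportion at most `C (p ^ t) ^ (-1 / 6) log (p ^ t)` of the families, **all**
varieties `Z` which are tame relative to `χ₀` are independent: this is the case if the eigenvalues of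
Frobenius of `Z`, up to powers and up to a group of rank less than the `g i`, are products of rational
numbers, of roots of `χ₀` and of Weil numbers of degree less than `2 d` (`d ≥ 3`).

For example (`χ₀ = X - 1`, `d` the minimum of the `g i`): if the `g i` are three or at least five, then
for almost all families (1) applies to **all** varieties `Z` (with finite-dimensional motive), of any
dimension, with all Betti numbers less than `2 d`, for instance to all products of curves of genus less
than `d`, and to the products of these with all varieties whose eigenvalues generate a group of rank
less than `d`.

Bass's conjecture predicts that all these groups are finitely generated. For `n > 0` they are then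
finite, by the theorem of Harder and Quillen for curves and the conjecture of Parshin in general. The
starting file of this problem (`TrilinearForms`) is about the equivalence of the conjecture with the one
for special hypersurfaces; the results on Parshin's conjecture in the starting files are about
K-theory with rational coefficients. Here the K-groups have integral coefficients.

The idea of the proof: by a sieve (helper521, helper484, and my modules SD, SG) almost all families in
a stratum are such that each pair `α`, `q / α` of roots can be exchanged by a Galois automorphism which
fixes all the other roots of all the `f i`. So for independent `Z` the only Tate classes on `A × Z` are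
sums of products of intersections of divisors on `A` with Tate classes on `Z`, and by nilpotence the
motive of `A × Z` with rational coefficients is the direct sum of Tate twists of the motive of `Z` and
of a motive on which the Frobenius endomorphism has no eigenvalue `Q ^ i`. The Frobenius acts on
K-theory as the Adams operation `ψ^Q`. For the passage to integral coefficients, the group `K_n(X)` is
considered through its sequences, tensored with `ℚ`; by the theorem of Riemann-Roch for Adams operations
(with bounded denominators) this is a rational theory on which correspondences act, graded by the
weights of `ψ^Q`. Its Künneth formula gives the Künneth formula for `K_n` up to a bounded denominator,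
with elements of `K_0` as correspondences. Since the groups have only finitely many elements of each
order for `n ≥ dim - 1`, this is enough.
-/

set_option autoImplicit false

namespace Pool.Agent.Results.MP_e17fa799_al.EveryVariety

open Polynomial Pool.Agent.N205.SG

open Pool.Agent.N205.KR (KForIndep)

/-- `StrataFacts`: the sets of the Weil polynomials with given Newton polygon, or with Newton
polygon on or above a given one, and the sets of those of given `p`-rank, are strata. -/
theorem result :
    (∀ {I : Type} [Fintype I] (g : I → ℕ) (_ : ∀ i, 0 < g i) (d : ℕ) (_ : DimsU g d) (B : ℕ),
      ∃ C : ℝ, ∀ p a t : ℕ, p.Prime → 0 < a → 0 < t → ∀ S : I → Set ℤ[X],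
        (∀ i, IsStratum p a (g i) t (S i)) →
        (∀ i, (S i).Finite ∧ (4 ^ g i ≤ p ^ t → (S i).Nonempty)) ∧
        ({f : I → ℤ[X] | (∀ i, f i ∈ S i) ∧ ¬ KForIndep (p ^ a) f}.ncard : ℝ) ≤
          C * (Real.log ((p ^ t : ℕ) : ℝ) * ((p ^ t : ℕ) : ℝ) ^ (-(1 / 6) : ℝ)) *
            ∏ i, ((S i).ncard : ℝ) ∧
        ∀ χ₀ : ℚ[X], χ₀ ≠ 0 → χ₀.natDegree ≤ B →
          ({f : I → ℤ[X] | (∀ i, f i ∈ S i) ∧ ¬ TameIndep g d (p ^ a) χ₀ f}.ncard : ℝ) ≤
            C * (Real.log ((p ^ t : ℕ) : ℝ) * ((p ^ t : ℕ) : ℝ) ^ (-(1 / 6) : ℝ)) *
              ∏ i, ((S i).ncard : ℝ)) ∧
    StrataFacts :=
  ⟨fun g hg d hd B => indep_unif g hg d hd B (fun q f => KForIndep q f)
    fun _ hq x hx => Pool.Agent.N205.KR.k_indep g hg hq.one_lt x hx, strataFacts⟩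

end Pool.Agent.Results.MP_e17fa799_al.EveryVariety
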